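import Pool.Agent.helper78.HFN.Spec

/-!
# Project hfn (MP_3221a1_ag), row hfn:LM2: every function given by types and masses is a limit of
normalized Hilbert functions
-/

set_option autoImplicit false

open Polynomial Module

namespace Pool.Agent.HFN

noncomputable section

theorem LM2_le (a b : ℕ) (ν x y : ℝ) (hν : 0 ≤ ν) (hx : 0 ≤ x) (hy : 0 ≤ y) : phi a b ν x y ≤ 3 * ν := by
  have h : 0 ≤ x * b + y * a := by positivity
  unfold phi
  have h1 : max 0 (2 * ν - (x * b + y * a)) ≤ 2 * ν := max_le (by linarith) (by linarith)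
  have h2 : max 0 (ν - (x * b + y * a)) ≤ ν := max_le hν (by linarith)
  linarith

theorem LM2_Fn (hPHI : PHI_stmt) (r m : ℕ) (hr : 1 ≤ r) (a b n : Fin m → ℕ) (i j : ℕ) :
    ((Fn r m a b n i j : ℤ) : ℝ) / r =
      3 - ∑ t, phi (a t) (b t) ((n t : ℝ) / r) ((i : ℝ) / r) ((j : ℝ) / r) := by
  have hr' : (r : ℝ) ≠ 0 := by positivity
  unfold Fn
  push_cast
  rw [sub_div, mul_div_assoc, div_self hr', mul_one, Finset.sum_div]
  congr 1
  exact Finset.sum_congr rfl fun t _ => hPHI.2.2.1 (a t) (b t) (n t) r i j hr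

open Filter Topology in
theorem LM2_floor (c : ℝ) (hc : 0 ≤ c) (r : ℕ → ℕ) (hr : Tendsto r atTop atTop) :
    Tendsto (fun k => ((⌊c * r k⌋₊ : ℕ) : ℝ) / r k) atTop (𝓝 c) := by
  have h := (tendsto_nat_floor_mul_div_atTop (R := ℝ) hc).comp
    ((tendsto_natCast_atTop_atTop (R := ℝ)).comp hr)
  exact h

open Filter Topology in
theorem LM2_sum (hPHI : PHI_stmt) (a b : ℕ → ℕ) (ν : ℕ → ℝ) (hν : ∀ t, 0 ≤ ν t) (hs : Summable ν)
    (r : ℕ → ℕ) (hr1 : ∀ k, 1 ≤ r k) (hr : Tendsto r atTop atTop) (x y : ℝ) (hx : 0 < x) (hy : 0 < y) :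
    Tendsto (fun k => ∑ t : Fin k, phi (a t) (b t) (((⌊ν t * r k⌋₊ : ℕ) : ℝ) / r k)
      (((⌊x * r k⌋₊ : ℕ) : ℝ) / r k) (((⌊y * r k⌋₊ : ℕ) : ℝ) / r k)) atTop
      (𝓝 (∑' t, phi (a t) (b t) (ν t) x y)) := by
  set f : ℕ → ℕ → ℝ := fun k t => if t < k then phi (a t) (b t) (((⌊ν t * r k⌋₊ : ℕ) : ℝ) / r k)
      (((⌊x * r k⌋₊ : ℕ) : ℝ) / r k) (((⌊y * r k⌋₊ : ℕ) : ℝ) / r k) else 0 with hf
  have h1 : ∀ k, ∑ t : Fin k, phi (a t) (b t) (((⌊ν t * r k⌋₊ : ℕ) : ℝ) / r k)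
      (((⌊x * r k⌋₊ : ℕ) : ℝ) / r k) (((⌊y * r k⌋₊ : ℕ) : ℝ) / r k) = ∑' t, f k t := by
    intro k
    rw [tsum_eq_sum (s := Finset.range k)]
    · rw [Finset.sum_range]
      refine Finset.sum_congr rfl fun t _ => ?_
      rw [hf]
      simp only
      rw [if_pos t.2]
    · intro t ht
      rw [Finset.mem_range] at ht
      rw [hf]
      simp only
      rw [if_neg ht]
  simp_rw [h1]
  refine tendsto_tsum_of_dominated_convergence (bound := fun t => 3 * ν t) (hs.mul_left 3) ?_ ?_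
  · intro t
    have h2 : Tendsto (fun k => phi (a t) (b t) (((⌊ν t * r k⌋₊ : ℕ) : ℝ) / r k)
      (((⌊x * r k⌋₊ : ℕ) : ℝ) / r k) (((⌊y * r k⌋₊ : ℕ) : ℝ) / r k)) atTop (𝓝 (phi (a t) (b t) (ν t) x y)) := by
      have e1 := LM2_floor (ν t) (hν t) r hr
      have e2 := LM2_floor x hx.le r hr
      have e3 := LM2_floor y hy.le r hr
      unfold phi
      exact (tendsto_const_nhds.max ((e1.const_mul 2).sub ((e2.mul_const _).add (e3.mul_const _)))).add
        (tendsto_const_nhds.max (e1.sub ((e2.mul_const _).add (e3.mul_const _))))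
    refine h2.congr' ?_
    filter_upwards [eventually_gt_atTop t] with k hk
    rw [hf]
    simp only
    rw [if_pos hk]
  · refine Eventually.of_forall fun k t => ?_
    have hrk : (0 : ℝ) < r k := by exact_mod_cast hr1 k
    rw [hf]
    simp only
    by_cases hk : t < k
    · rw [if_pos hk, Real.norm_eq_abs, abs_of_nonneg (hPHI.1 _ _ _ _ _)]
      have h3 : ((⌊ν t * r k⌋₊ : ℕ) : ℝ) / r k ≤ ν t := by
        rw [div_le_iff₀ hrk]
        exact Nat.floor_le (mul_nonneg (hν t) hrk.le)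
      refine (LM2_le _ _ _ _ _ (by positivity) (by positivity) (by positivity)).trans ?_
      linarith
    · rw [if_neg hk, norm_zero]
      exact mul_nonneg (by norm_num) (hν t)

open Filter Topology in
open Pool.Agent.helper97.FP in
theorem LM2 (hNRM : NRM_stmt) (hPHI : PHI_stmt) : LM2_stmt := by
  rintro hMain h ⟨a, b, ν, hty, hν, hs, h1, hh⟩
  obtain ⟨T, hT1, hT2, hT3⟩ := hNRM
  obtain ⟨r0, hr0⟩ := eventually_atTop.1 hT1
  set r : ℕ → ℕ := fun k => k + (r0 + 1) with hr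
  have hrT : Tendsto r atTop atTop := tendsto_add_atTop_nat (r0 + 1)
  have hr1 : ∀ k, 1 ≤ r k := fun k => by simp only [hr]; omega
  have hrr : ∀ k, r0 ≤ r k := fun k => by simp only [hr]; omega
  have hY : ∀ k, ∃ Y : Finset Point, Y.card = r k ∧ ∀ i j : ℕ, T (r k) ≤ i → T (r k) ≤ j →
      |(hilbert (doubleIdeal Y) i j : ℤ) - Fn (r k) k (fun t => a t) (fun t => b t)
        (fun t => ⌊ν t * r k⌋₊) i j| * (T (r k) * T (r k)) ≤ 264 * (r k : ℤ) ^ 2 := by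
    intro k
    obtain ⟨e1, e2, e3⟩ := hr0 (r k) (hrr k)
    refine (hMain (r k) (T (r k)) (T (r k)) e1 e1 e2 e2 e3).2 k (fun t => a t) (fun t => b t)
        (fun t => ⌊ν t * r k⌋₊) ⟨fun t => hty t, ?_⟩
    have h2 : ((∑ t : Fin k, ⌊ν t * r k⌋₊ : ℕ) : ℝ) ≤ (r k : ℝ) := by
      push_cast
      calc ∑ t : Fin k, ((⌊ν t * r k⌋₊ : ℕ) : ℝ) ≤ ∑ t : Fin k, ν t * r k :=
            Finset.sum_le_sum fun t _ => Nat.floor_le (mul_nonneg (hν t) (Nat.cast_nonneg _))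
        _ = (∑ t ∈ Finset.range k, ν t) * r k := by
            rw [← Finset.sum_mul, Finset.sum_range]
        _ ≤ 1 * r k := by
            refine mul_le_mul_of_nonneg_right ?_ (Nat.cast_nonneg _)
            exact (hs.sum_le_tsum _ fun t _ => hν t).trans h1
        _ = r k := one_mul _
    exact_mod_cast h2
  choose Y hYc hYb using hY
  refine ⟨r, Y, hYc, hrT, fun x y hx hy => ?_⟩
  rw [hh x y hx hy]
  set i : ℕ → ℕ := fun k => ⌊x * r k⌋₊ with hi
  set j : ℕ → ℕ := fun k => ⌊y * r k⌋₊ with hj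
  set F : ℕ → ℤ := fun k => Fn (r k) k (fun t => a t) (fun t => b t) (fun t => ⌊ν t * r k⌋₊) (i k) (j k) with hF
  have hFk : ∀ k, ((F k : ℤ) : ℝ) / r k = 3 - ∑ t : Fin k, phi (a t) (b t) (((⌊ν t * r k⌋₊ : ℕ) : ℝ) / r k)
      (((⌊x * r k⌋₊ : ℕ) : ℝ) / r k) (((⌊y * r k⌋₊ : ℕ) : ℝ) / r k) := fun k =>
    LM2_Fn hPHI (r k) k (hr1 k) _ _ _ _ _
  have hlim1 : Tendsto (fun k => ((F k : ℤ) : ℝ) / r k) atTop (𝓝 (3 - ∑' t, phi (a t) (b t) (ν t) x y)) := by
    simp_rw [hFk]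
    exact tendsto_const_nhds.sub (LM2_sum hPHI a b ν hν hs r hr1 hrT x y hx hy)
  have hTr : Tendsto (fun k => (T (r k) : ℝ) / r k) atTop (𝓝 0) := hT2.comp hrT
  have hev : ∀ c : ℝ, 0 < c → ∀ᶠ k in atTop, T (r k) ≤ ⌊c * r k⌋₊ := by
    intro c hc
    filter_upwards [hTr.eventually (gt_mem_nhds hc)] with k hk
    have hrk : (0 : ℝ) < r k := by exact_mod_cast hr1 k
    rw [div_lt_iff₀ hrk] at hk
    exact Nat.le_floor hk.le
  have hlim2 : Tendsto (fun k => (hilbert (doubleIdeal (Y k)) (i k) (j k) : ℝ) / r k - ((F k : ℤ) : ℝ) / r k)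
      atTop (𝓝 0) := by
    have h3 : Tendsto (fun k => 264 * ((r k : ℝ) / (T (r k) : ℝ) ^ 2)) atTop (𝓝 0) := by
      have := (hT3.comp hrT).const_mul 264
      rw [mul_zero] at this
      exact this
    refine squeeze_zero_norm' ?_ h3
    filter_upwards [hev x hx, hev y hy] with k hk1 hk2
    have hb := hYb k (i k) (j k) hk1 hk2
    have hrk : (0 : ℝ) < r k := by exact_mod_cast hr1 k
    have hTk : (0 : ℝ) < T (r k) := by
      have := (hr0 (r k) (hrr k)).1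
      exact_mod_cast (by omega : 0 < T (r k))
    have hb' : |(hilbert (doubleIdeal (Y k)) (i k) (j k) : ℝ) - ((F k : ℤ) : ℝ)| * ((T (r k) : ℝ) * T (r k)) ≤
        264 * (r k : ℝ) ^ 2 := by
      exact_mod_cast hb
    rw [← sub_div, norm_div, Real.norm_eq_abs, Real.norm_eq_abs, abs_of_pos hrk, div_le_iff₀ hrk]
    have e : 264 * ((r k : ℝ) / (T (r k) : ℝ) ^ 2) * r k = 264 * (r k : ℝ) ^ 2 / ((T (r k) : ℝ) * T (r k)) := by
      field_simp
    rw [e, le_div_iff₀ (by positivity)]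
    exact hb'
  have h4 := hlim2.add hlim1
  rw [zero_add] at h4
  refine h4.congr fun k => ?_
  rw [sub_add_cancel]

end

end Pool.Agent.HFN
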